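import Mathlib

set_option autoImplicit false

namespace Pool.Agent.Results.MP_968ae6_lc.NoSingleAcyclic

/-- A graph database over the alphabet `S` with set of nodes `V`: a set of labelled edges
`(u, a, v)` (the node set is required to be finite wherever databases are quantified). -/
structure DB (S V : Type) where
  edge : V → S → V → Prop

/-- One step of a semipath; the letter `(a, true)` stands for `a` and `(a, false)` for the
inverse letter `a^-`. -/
def step {S V : Type} (G : DB S V) (p : S × Bool) (u v : V) : Prop :=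
  if p.2 = true then G.edge u p.1 v else G.edge v p.1 u

/-- There is a semipath from `u` to `v` with the given label. -/
def semipath {S V : Type} (G : DB S V) : List (S × Bool) → V → V → Prop
  | [], u, v => u = v
  | p :: w, u, v => ∃ t, step G p u t ∧ semipath G w t v

/-- The answers of a 2RPQ: pairs of nodes joined by a semipath whose label is in the language
of the regular expression. -/
def rpq {S V : Type} (G : DB S V) (R : RegularExpression (S × Bool)) (u v : V) : Prop :=
  ∃ w ∈ R.matches', semipath G w u v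

/-- A C2RPQ with `k` free variables: finitely many variables, the list of the free ones, and a
finite list of atoms `(u, R, v)`. -/
structure C2RPQ (S : Type) (k : ℕ) where
  nv : ℕ
  head : Fin k → Fin nv
  atoms : List (Fin nv × RegularExpression (S × Bool) × Fin nv)

/-- The assignment `h` satisfies all atoms. -/
def C2RPQ.sat {S : Type} {k : ℕ} (Q : C2RPQ S k) {V : Type} (G : DB S V)
    (h : Fin Q.nv → V) : Prop :=
  ∀ t ∈ Q.atoms, rpq G t.2.1 (h t.1) (h t.2.2)

/-- The tuple `a` is an answer of `Q` in `G`. -/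
def C2RPQ.ans {S : Type} {k : ℕ} (Q : C2RPQ S k) {V : Type} (G : DB S V)
    (a : Fin k → V) : Prop :=
  ∃ h : Fin Q.nv → V, (∀ i, h (Q.head i) = a i) ∧ Q.sat G h

/-- The undirected graph on the variables: parallel atoms merged, self-loops ignored. -/
def C2RPQ.graph {S : Type} {k : ℕ} (Q : C2RPQ S k) : SimpleGraph (Fin Q.nv) where
  Adj u v := u ≠ v ∧ ∃ t ∈ Q.atoms, (t.1 = u ∧ t.2.2 = v) ∨ (t.1 = v ∧ t.2.2 = u)
  symm := ⟨by
    rintro u v ⟨h, t, ht, h'⟩
    exact ⟨h.symm, t, ht, h'.symm⟩⟩
  loopless := ⟨fun u h => h.1 rfl⟩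

/-- A C2RPQ is acyclic if its undirected graph is a forest. -/
def C2RPQ.Acyclic {S : Type} {k : ℕ} (Q : C2RPQ S k) : Prop := Q.graph.IsAcyclic

/-- Equivalence of two C2RPQs with the same number of free variables. -/
def Equivalent {S : Type} {k : ℕ} (Q P : C2RPQ S k) : Prop :=
  ∀ (V : Type) [Finite V] (G : DB S V) (a : Fin k → V), Q.ans G a ↔ P.ans G a

/-- `Q` is equivalent to an acyclic UC2RPQ, that is, to a finite nonempty disjunction of acyclic
C2RPQs with the same free tuple. -/
def SemAcyclic {S : Type} {k : ℕ} (Q : C2RPQ S k) : Prop :=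
  ∃ U : List (C2RPQ S k), U ≠ [] ∧ (∀ P ∈ U, P.Acyclic) ∧
    ∀ (V : Type) [Finite V] (G : DB S V) (a : Fin k → V), Q.ans G a ↔ ∃ P ∈ U, P.ans G a

/-! ### Words -/

/-- the regular expression of one word -/
def word {A : Type} : List A → RegularExpression A
  | [] => 1
  | a :: l => RegularExpression.char a * word l

lemma mem_word {A : Type} (l w : List A) : w ∈ (word l).matches' ↔ w = l := by
  induction l generalizing w with
  | nil => simp [word, RegularExpression.matches'_epsilon, Language.mem_one]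
  | cons a l ih =>
    rw [word, RegularExpression.matches'_mul, Language.mem_mul]
    constructor
    · rintro ⟨x, hx, y, hy, rfl⟩
      rw [ih] at hy
      rw [RegularExpression.matches'_char] at hx
      have : x = [a] := hx
      rw [this, hy]; rfl
    · rintro rfl
      refine ⟨[a], ?_, l, (ih l).2 rfl, rfl⟩
      rw [RegularExpression.matches'_char]
      exact rfl

lemma rpq_word {S V : Type} (G : DB S V) (l : List (S × Bool)) (u v : V) :
    rpq G (word l) u v ↔ semipath G l u v := by
  constructor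
  · rintro ⟨w, hw, h⟩
    rw [mem_word] at hw
    subst hw; exact h
  · intro h
    exact ⟨l, (mem_word l l).2 rfl, h⟩

lemma rpq_add {S V : Type} (G : DB S V) (R R' : RegularExpression (S × Bool)) (u v : V) :
    rpq G (R + R') u v ↔ rpq G R u v ∨ rpq G R' u v := by
  unfold rpq
  rw [RegularExpression.matches'_add]
  constructor
  · rintro ⟨w, hw, h⟩
    rcases (Language.mem_add _ _ _).1 hw with h1 | h1
    · exact Or.inl ⟨w, h1, h⟩
    · exact Or.inr ⟨w, h1, h⟩
  · rintro (⟨w, hw, h⟩ | ⟨w, hw, h⟩)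
    · exact ⟨w, (Language.mem_add _ _ _).2 (Or.inl hw), h⟩
    · exact ⟨w, (Language.mem_add _ _ _).2 (Or.inr hw), h⟩

/-! ### Glueing two databases -/

/-- the disjoint union of `G` with the image of `H` under `f` -/
def amal {S V W : Type} (G : DB S V) (H : DB S W) (f : W → V ⊕ W) : DB S (V ⊕ W) where
  edge p c q := (∃ u v, p = .inl u ∧ q = .inl v ∧ G.edge u c v) ∨
    (∃ u v, p = f u ∧ q = f v ∧ H.edge u c v)

lemma semipath_map {S V W : Type} (G : DB S V) (H : DB S W) (f : V → W)
    (hf : ∀ u c v, G.edge u c v → H.edge (f u) c (f v)) :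
    ∀ (w : List (S × Bool)) (u v : V), semipath G w u v → semipath H w (f u) (f v) := by
  intro w
  induction w with
  | nil => intro u v h; exact congrArg f h
  | cons p w ih =>
    rintro u v ⟨t, h1, h2⟩
    refine ⟨f t, ?_, ih t v h2⟩
    unfold step at h1 ⊢
    split_ifs at h1 ⊢
    · exact hf _ _ _ h1
    · exact hf _ _ _ h1

lemma rpq_inl {S V W : Type} (G : DB S V) (H : DB S W) (f : W → V ⊕ W)
    (R : RegularExpression (S × Bool)) (u v : V) (h : rpq G R u v) :
    rpq (amal G H f) R (.inl u) (.inl v) := by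
  obtain ⟨w, hw, h⟩ := h
  exact ⟨w, hw, semipath_map G (amal G H f) Sum.inl
    (fun u c v h => Or.inl ⟨u, v, rfl, rfl, h⟩) w u v h⟩

lemma rpq_right {S V W : Type} (G : DB S V) (H : DB S W) (f : W → V ⊕ W)
    (R : RegularExpression (S × Bool)) (u v : W) (h : rpq H R u v) :
    rpq (amal G H f) R (f u) (f v) := by
  obtain ⟨w, hw, h⟩ := h
  exact ⟨w, hw, semipath_map H (amal G H f) f
    (fun u c v h => Or.inr ⟨u, v, rfl, rfl, h⟩) w u v h⟩

open Classical in
lemma amal_sat {S V W : Type} {k : ℕ} (Q : C2RPQ S k) (G : DB S V) (H : DB S W)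
    (f : W → V ⊕ W) (h1 : Fin Q.nv → V) (h2 : Fin Q.nv → W) (hs1 : Q.sat G h1)
    (hs2 : Q.sat H h2) (A : Set (Fin Q.nv))
    (hA : ∀ s t, Q.graph.Adj s t → s ∈ A → t ∉ A → f (h2 t) = .inl (h1 t)) :
    Q.sat (amal G H f) (fun s => if s ∈ A then f (h2 s) else .inl (h1 s)) := by
  intro t ht
  have a1 := hs1 t ht
  have a2 := hs2 t ht
  by_cases e : t.1 = t.2.2
  · by_cases h : t.1 ∈ A
    · have h' : t.2.2 ∈ A := e ▸ h
      simp only [h, h', if_true]
      exact rpq_right G H f _ _ _ a2
    · have h' : t.2.2 ∉ A := e ▸ h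
      simp only [h, h', if_false]
      exact rpq_inl G H f _ _ _ a1
  have adj : Q.graph.Adj t.1 t.2.2 := ⟨e, t, ht, Or.inl ⟨rfl, rfl⟩⟩
  by_cases h : t.1 ∈ A <;> by_cases h' : t.2.2 ∈ A
  · simp only [h, h', if_true]
    exact rpq_right G H f _ _ _ a2
  · simp only [h, h', if_true, if_false]
    rw [← hA _ _ adj h h']
    exact rpq_right G H f _ _ _ a2
  · simp only [h, h', if_true, if_false]
    rw [← hA _ _ adj.symm h' h]
    exact rpq_right G H f _ _ _ a2
  · simp only [h, h', if_false]
    exact rpq_inl G H f _ _ _ a1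

/-! ### Forests -/

lemma acyclic_of_parent {n : ℕ} (G : SimpleGraph (Fin n))
    (h : ∀ j i i', G.Adj j i → G.Adj j i' → i < j → i' < j → i = i') : G.IsAcyclic := by
  classical
  intro v c hc
  obtain ⟨m, hm, hmax⟩ := c.support.toFinset.exists_max_image id
    ⟨v, by simp⟩
  have hm' : m ∈ c.support := by simpa using hm
  have hr := hc.rotate hm'
  set d := c.rotate m hm' with hd
  have hsub : ∀ x ∈ d.support, x ∈ c.support := by
    intro x hx
    simpa [hd] using hx
  have nn := hr.not_nil
  have a1 : G.Adj m d.snd := d.adj_snd nn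
  have a2 : G.Adj m d.penultimate := (d.adj_penultimate nn).symm
  have b1 : d.snd ≤ m := by
    have := hmax d.snd (by simpa using hsub _ (by simp))
    simpa using this
  have b2 : d.penultimate ≤ m := by
    have := hmax d.penultimate (by simpa using hsub _ (by simp))
    simpa using this
  exact hr.snd_ne_penultimate (h m _ _ a1 a2 (lt_of_le_of_ne b1 a1.ne.symm)
    (lt_of_le_of_ne b2 a2.ne.symm))

/-- every walk from `p` to `q` passes through `t` -/
def Sep {V : Type} (G : SimpleGraph V) (t p q : V) : Prop :=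
  ∀ w : G.Walk p q, t ∈ w.support

lemma Sep.symm {V : Type} {G : SimpleGraph V} {t p q : V} (h : Sep G t p q) : Sep G t q p := by
  intro w
  have := h w.reverse
  simpa using this

lemma sep_of_path {V : Type} {G : SimpleGraph V} (hG : G.IsAcyclic) {t p q : V}
    (w : G.Walk p q) (hw : w.IsPath) (ht : t ∈ w.support) : Sep G t p q := by
  classical
  intro w'
  have e := (hG.subsingleton_path p q).elim ⟨w, hw⟩ w'.toPath
  have : t ∈ (w'.toPath : G.Walk p q).support := by
    rw [← e]; exact ht
  exact w'.support_toPath_subset_support this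

lemma path_append {V : Type} {G : SimpleGraph V} {u t v : V} (R : G.Walk u t) (S : G.Walk t v)
    (hR : R.IsPath) (hS : S.IsPath) (h : ∀ r ∈ R.support, r ∈ S.support → r = t) :
    (R.append S).IsPath := by
  rw [SimpleGraph.Walk.isPath_def, SimpleGraph.Walk.support_append, List.nodup_append]
  have hS' := hS.support_nodup
  rw [← SimpleGraph.Walk.cons_tail_support, List.nodup_cons] at hS'
  refine ⟨hR.support_nodup, hS'.2, ?_⟩
  intro a ha b hb hab
  subst hab
  have : a = t := h a ha (by
    rw [← SimpleGraph.Walk.cons_tail_support]; exact List.mem_cons_of_mem _ hb)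
  subst this
  exact hS'.1 hb

/-- The median of three vertices in a tree. -/
lemma exists_median {V : Type} {G : SimpleGraph V} (hG : G.IsAcyclic) (x y z : V)
    (hxy : G.Reachable x y) (hyz : G.Reachable y z) :
    ∃ t, Sep G t x y ∧ Sep G t y z ∧ Sep G t x z := by
  classical
  obtain ⟨P, hP, -⟩ := (hxy.trans hyz).exists_path_of_dist
  obtain ⟨t, ht, hmin⟩ := P.support.toFinset.exists_min_image (fun s => G.dist y s)
    ⟨x, by simp⟩
  have ht' : t ∈ P.support := by simpa using ht
  have hyt : G.Reachable y t := hxy.symm.trans ⟨P.takeUntil t ht'⟩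
  obtain ⟨R, hR, hRl⟩ := hyt.exists_path_of_dist
  have key : ∀ r ∈ R.support, r ∈ P.support → r = t := by
    intro r hr hrP
    by_contra hne
    have h1 : (R.takeUntil r hr).length < R.length := R.length_takeUntil_lt_length hr hne
    have h2 : G.dist y r ≤ (R.takeUntil r hr).length := SimpleGraph.dist_le _
    have h3 := hmin r (by simpa using hrP)
    omega
  refine ⟨t, ?_, ?_, ?_⟩
  · apply Sep.symm
    have hp : (R.append (P.takeUntil t ht').reverse).IsPath := by
      apply path_append _ _ hR ((hP.takeUntil ht').reverse)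
      intro r hr hr'
      refine key r hr ?_
      rw [SimpleGraph.Walk.support_reverse, List.mem_reverse] at hr'
      exact P.support_takeUntil_subset_support ht' hr'
    refine sep_of_path hG _ hp ?_
    rw [SimpleGraph.Walk.mem_support_append_iff]
    exact Or.inl (by simp)
  · have hp : (R.append (P.dropUntil t ht')).IsPath := by
      apply path_append _ _ hR (hP.dropUntil ht')
      intro r hr hr'
      exact key r hr (P.support_dropUntil_subset_support ht' hr')
    refine sep_of_path hG _ hp ?_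
    rw [SimpleGraph.Walk.mem_support_append_iff]
    exact Or.inl (by simp)
  · exact sep_of_path hG P hP ht'

/-! ### The example -/

/-- three letters -/
inductive L where
  | l | m | n
  deriving DecidableEq, Fintype

/-- the two-word language `{ m m^- l l , l l n n^- }` -/
def bigR : RegularExpression (L × Bool) :=
  word [(L.m, true), (L.m, false), (L.l, true), (L.l, true)] +
    word [(L.l, true), (L.l, true), (L.n, true), (L.n, false)]

/-- `Q(x,y,z) = (x, l, y) ∧ (y, l, z) ∧ (x, m m^- l l + l l n n^-, z)` -/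
def Q : C2RPQ L 3 where
  nv := 3
  head := id
  atoms := [(0, word [(L.l, true)], 1), (1, word [(L.l, true)], 2), (0, bigR, 2)]

/-- `P1(x,y,z) = ∃ e, (x, l, y) ∧ (y, l, z) ∧ (x, m, e)` -/
def P1 : C2RPQ L 3 where
  nv := 4
  head := ![0, 1, 2]
  atoms := [(0, word [(L.l, true)], 1), (1, word [(L.l, true)], 2), (0, word [(L.m, true)], 3)]

/-- `P2(x,y,z) = ∃ e, (x, l, y) ∧ (y, l, z) ∧ (z, n, e)` -/
def P2 : C2RPQ L 3 where
  nv := 4
  head := ![0, 1, 2]
  atoms := [(0, word [(L.l, true)], 1), (1, word [(L.l, true)], 2), (2, word [(L.n, true)], 3)]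

lemma mem_Q (t : Fin 3 × RegularExpression (L × Bool) × Fin 3) : t ∈ Q.atoms ↔
    (t = (0, word [(L.l, true)], 1) ∨ t = (1, word [(L.l, true)], 2) ∨ t = (0, bigR, 2)) := by
  change t ∈ ([(0, word [(L.l, true)], 1), (1, word [(L.l, true)], 2), (0, bigR, 2)] :
    List (Fin 3 × RegularExpression (L × Bool) × Fin 3)) ↔ _
  simp only [List.mem_cons, List.not_mem_nil, or_false]

lemma mem_P1 (t : Fin 4 × RegularExpression (L × Bool) × Fin 4) : t ∈ P1.atoms ↔
    (t = (0, word [(L.l, true)], 1) ∨ t = (1, word [(L.l, true)], 2) ∨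
      t = (0, word [(L.m, true)], 3)) := by
  change t ∈ ([(0, word [(L.l, true)], 1), (1, word [(L.l, true)], 2),
    (0, word [(L.m, true)], 3)] : List (Fin 4 × RegularExpression (L × Bool) × Fin 4)) ↔ _
  simp only [List.mem_cons, List.not_mem_nil, or_false]

lemma mem_P2 (t : Fin 4 × RegularExpression (L × Bool) × Fin 4) : t ∈ P2.atoms ↔
    (t = (0, word [(L.l, true)], 1) ∨ t = (1, word [(L.l, true)], 2) ∨
      t = (2, word [(L.n, true)], 3)) := by
  change t ∈ ([(0, word [(L.l, true)], 1), (1, word [(L.l, true)], 2),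
    (2, word [(L.n, true)], 3)] : List (Fin 4 × RegularExpression (L × Bool) × Fin 4)) ↔ _
  simp only [List.mem_cons, List.not_mem_nil, or_false]

lemma semipath1 {S V : Type} (G : DB S V) (c : S) (u v : V) :
    semipath G [(c, true)] u v ↔ G.edge u c v := by
  simp [semipath, step]

lemma bigR_iff {V : Type} (G : DB L V) (x z : V) :
    rpq G bigR x z ↔
      ((∃ e x' y, G.edge x L.m e ∧ G.edge x' L.m e ∧ G.edge x' L.l y ∧ G.edge y L.l z) ∨
       (∃ y z' e, G.edge x L.l y ∧ G.edge y L.l z' ∧ G.edge z' L.n e ∧ G.edge z L.n e)) := by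
  unfold bigR
  rw [rpq_add, rpq_word, rpq_word]
  constructor
  · rintro (h | h)
    · left
      obtain ⟨e, h1, x', h2, y, h3, z', h4, h5⟩ := h
      have h5 : z' = z := h5
      subst h5
      exact ⟨e, x', y, by simpa [step] using h1, by simpa [step] using h2,
        by simpa [step] using h3, by simpa [step] using h4⟩
    · right
      obtain ⟨y, h1, z', h2, e, h3, z'', h4, h5⟩ := h
      have h5 : z'' = z := h5
      subst h5
      exact ⟨y, z', e, by simpa [step] using h1, by simpa [step] using h2,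
        by simpa [step] using h3, by simpa [step] using h4⟩
  · rintro (⟨e, x', y, h1, h2, h3, h4⟩ | ⟨y, z', e, h1, h2, h3, h4⟩)
    · left
      exact ⟨e, by simpa [step] using h1, x', by simpa [step] using h2, y,
        by simpa [step] using h3, z, by simpa [step] using h4, rfl⟩
    · right
      exact ⟨y, by simpa [step] using h1, z', by simpa [step] using h2, e,
        by simpa [step] using h3, z, by simpa [step] using h4, rfl⟩

lemma Q_ans {V : Type} (G : DB L V) (a : Fin 3 → V) :
    Q.ans G a ↔ (G.edge (a 0) L.l (a 1) ∧ G.edge (a 1) L.l (a 2) ∧ rpq G bigR (a 0) (a 2)) := by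
  constructor
  · rintro ⟨h, h1, h2⟩
    have e : h = a := funext h1
    subst e
    refine ⟨?_, ?_, ?_⟩
    · have := h2 _ ((mem_Q _).2 (Or.inl rfl))
      rw [rpq_word, semipath1] at this
      exact this
    · have := h2 _ ((mem_Q _).2 (Or.inr (Or.inl rfl)))
      rw [rpq_word, semipath1] at this
      exact this
    · exact h2 _ ((mem_Q _).2 (Or.inr (Or.inr rfl)))
  · rintro ⟨h1, h2, h3⟩
    refine ⟨a, fun i => rfl, ?_⟩
    intro t ht
    rcases (mem_Q t).1 ht with rfl | rfl | rfl
    · rw [rpq_word, semipath1]; exact h1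
    · rw [rpq_word, semipath1]; exact h2
    · exact h3

lemma P1_ans {V : Type} (G : DB L V) (a : Fin 3 → V) :
    P1.ans G a ↔ (G.edge (a 0) L.l (a 1) ∧ G.edge (a 1) L.l (a 2) ∧ ∃ e, G.edge (a 0) L.m e) := by
  constructor
  · rintro ⟨h, h1, h2⟩
    have e0 : h (0 : Fin 4) = a 0 := h1 0
    have e1 : h (1 : Fin 4) = a 1 := h1 1
    have e2 : h (2 : Fin 4) = a 2 := h1 2
    refine ⟨?_, ?_, h (3 : Fin 4), ?_⟩
    · have := h2 _ ((mem_P1 _).2 (Or.inl rfl))
      rw [rpq_word, semipath1] at this
      rw [← e0, ← e1]; exact this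
    · have := h2 _ ((mem_P1 _).2 (Or.inr (Or.inl rfl)))
      rw [rpq_word, semipath1] at this
      rw [← e1, ← e2]; exact this
    · have := h2 _ ((mem_P1 _).2 (Or.inr (Or.inr rfl)))
      rw [rpq_word, semipath1] at this
      rw [← e0]; exact this
  · rintro ⟨h1, h2, e, h3⟩
    refine ⟨![a 0, a 1, a 2, e], ?_, ?_⟩
    · intro i
      fin_cases i <;> rfl
    · intro t ht
      rcases (mem_P1 t).1 ht with rfl | rfl | rfl
      · rw [rpq_word, semipath1]; exact h1
      · rw [rpq_word, semipath1]; exact h2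
      · rw [rpq_word, semipath1]; exact h3

lemma P2_ans {V : Type} (G : DB L V) (a : Fin 3 → V) :
    P2.ans G a ↔ (G.edge (a 0) L.l (a 1) ∧ G.edge (a 1) L.l (a 2) ∧ ∃ e, G.edge (a 2) L.n e) := by
  constructor
  · rintro ⟨h, h1, h2⟩
    have e0 : h (0 : Fin 4) = a 0 := h1 0
    have e1 : h (1 : Fin 4) = a 1 := h1 1
    have e2 : h (2 : Fin 4) = a 2 := h1 2
    refine ⟨?_, ?_, h (3 : Fin 4), ?_⟩
    · have := h2 _ ((mem_P2 _).2 (Or.inl rfl))
      rw [rpq_word, semipath1] at this
      rw [← e0, ← e1]; exact this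
    · have := h2 _ ((mem_P2 _).2 (Or.inr (Or.inl rfl)))
      rw [rpq_word, semipath1] at this
      rw [← e1, ← e2]; exact this
    · have := h2 _ ((mem_P2 _).2 (Or.inr (Or.inr rfl)))
      rw [rpq_word, semipath1] at this
      rw [← e2]; exact this
  · rintro ⟨h1, h2, e, h3⟩
    refine ⟨![a 0, a 1, a 2, e], ?_, ?_⟩
    · intro i
      fin_cases i <;> rfl
    · intro t ht
      rcases (mem_P2 t).1 ht with rfl | rfl | rfl
      · rw [rpq_word, semipath1]; exact h1
      · rw [rpq_word, semipath1]; exact h2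
      · rw [rpq_word, semipath1]; exact h3

lemma Q_equiv {V : Type} (G : DB L V) (a : Fin 3 → V) :
    Q.ans G a ↔ ∃ P ∈ [P1, P2], P.ans G a := by
  simp only [List.mem_cons, List.not_mem_nil, or_false, exists_eq_or_imp, exists_eq_left]
  rw [Q_ans, P1_ans, P2_ans, bigR_iff]
  constructor
  · rintro ⟨h1, h2, (⟨e, x', y, h3, -⟩ | ⟨y, z', e, -, -, -, h3⟩)⟩
    · exact Or.inl ⟨h1, h2, e, h3⟩
    · exact Or.inr ⟨h1, h2, e, h3⟩
  · rintro (⟨h1, h2, e, h3⟩ | ⟨h1, h2, e, h3⟩)
    · exact ⟨h1, h2, Or.inl ⟨e, a 0, a 1, h3, h3, h1, h2⟩⟩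
    · exact ⟨h1, h2, Or.inr ⟨a 1, a 2, e, h1, h2, h3, h3⟩⟩

lemma P1_acyclic : P1.Acyclic := by
  apply acyclic_of_parent
  intro j i i' h1 h2 h3 h4
  change Fin 4 at j i i'
  obtain ⟨-, t, ht, h⟩ := h1
  obtain ⟨-, t', ht', h'⟩ := h2
  rcases (mem_P1 t).1 ht with rfl | rfl | rfl <;> rcases (mem_P1 t').1 ht' with rfl | rfl | rfl <;>
    rcases h with ⟨rfl, rfl⟩ | ⟨rfl, rfl⟩ <;> rcases h' with ⟨h5, h6⟩ | ⟨h5, h6⟩ <;>
    first
      | exact h6
      | exact h5
      | exact absurd h3 (by decide)
      | exact absurd h5 (by decide)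
      | exact absurd h6 (by decide)
      | (subst h6; exact absurd h4 (by decide))

lemma P2_acyclic : P2.Acyclic := by
  apply acyclic_of_parent
  intro j i i' h1 h2 h3 h4
  change Fin 4 at j i i'
  obtain ⟨-, t, ht, h⟩ := h1
  obtain ⟨-, t', ht', h'⟩ := h2
  rcases (mem_P2 t).1 ht with rfl | rfl | rfl <;> rcases (mem_P2 t').1 ht' with rfl | rfl | rfl <;>
    rcases h with ⟨rfl, rfl⟩ | ⟨rfl, rfl⟩ <;> rcases h' with ⟨h5, h6⟩ | ⟨h5, h6⟩ <;>
    first
      | exact h6
      | exact h5
      | exact absurd h3 (by decide)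
      | exact absurd h5 (by decide)
      | exact absurd h6 (by decide)
      | (subst h6; exact absurd h4 (by decide))

lemma Q_semAcyclic : SemAcyclic Q := by
  refine ⟨[P1, P2], by simp, ?_, fun V _ G a => Q_equiv G a⟩
  intro P hP
  simp only [List.mem_cons, List.not_mem_nil, or_false] at hP
  rcases hP with rfl | rfl
  · exact P1_acyclic
  · exact P2_acyclic

/-! ### The canonical databases of `P1` and `P2` -/

/-- canonical database of `P1` -/
def T1 : DB L (Fin 4) where
  edge u c v := (u = 0 ∧ c = L.l ∧ v = 1) ∨ (u = 1 ∧ c = L.l ∧ v = 2) ∨ (u = 0 ∧ c = L.m ∧ v = 3)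

/-- canonical database of `P2` -/
def T2 : DB L (Fin 4) where
  edge u c v := (u = 0 ∧ c = L.l ∧ v = 1) ∨ (u = 1 ∧ c = L.l ∧ v = 2) ∨ (u = 2 ∧ c = L.n ∧ v = 3)

/-- glueing map: `b` is sent to the node `a` of the left copy -/
def phi (a b w : Fin 4) : Fin 4 ⊕ Fin 4 := if w = b then .inl a else .inr w

open Classical in
/-- If every walk from `p` to the other two free variables passes through `t`, the answer can be
split at `t`. -/
lemma split_ans {S : Type} {k : ℕ} (P : C2RPQ S k) (G H : DB S (Fin 4))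
    (h1 h2 : Fin P.nv → Fin 4) (hs1 : P.sat G h1) (hs2 : P.sat H h2) (t : Fin P.nv)
    (i : Fin k) (hsep : ∀ j, j ≠ i → Sep P.graph t (P.head i) (P.head j)) :
    P.ans (amal G H (phi (h1 t) (h2 t)))
      (fun j => if j = i then phi (h1 t) (h2 t) (h2 (P.head i)) else .inl (h1 (P.head j))) := by
  let A : Set (Fin P.nv) := {r | ∃ w : P.graph.Walk (P.head i) r, t ∉ w.support}
  have htA : t ∉ A := by
    rintro ⟨w, hw⟩
    exact hw (by simp)
  have hs := amal_sat P G H (phi (h1 t) (h2 t)) h1 h2 hs1 hs2 A (by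
    intro s r adj hsA hrA
    have hr : r = t := by
      by_contra hne
      obtain ⟨w, hw⟩ := hsA
      apply hrA
      refine ⟨w.concat adj, ?_⟩
      rw [SimpleGraph.Walk.support_concat, List.mem_append,
        List.mem_singleton]
      rintro (h | h)
      · exact hw h
      · exact hne h.symm
    subst hr
    simp [phi])
  refine ⟨_, ?_, hs⟩
  intro j
  by_cases hj : j = i
  · subst hj
    simp only [if_true]
    by_cases hA : P.head j ∈ A
    · simp only [hA, if_true]
    · simp only [hA, if_false]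
      have : t = P.head j := by
        by_contra hne
        apply hA
        refine ⟨SimpleGraph.Walk.nil, ?_⟩
        simpa using hne
      rw [← this]
      simp [phi]
  · simp only [hj, if_false]
    have hA : P.head j ∉ A := by
      rintro ⟨w, hw⟩
      exact hw (hsep j hj w)
    simp only [hA, if_false]

open Classical in
/-- If the free variable `i` cannot reach the free variable `j`, the answer can be split
completely. -/
lemma split_disj {S : Type} {k : ℕ} (P : C2RPQ S k) (G H : DB S (Fin 4))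
    (h1 h2 : Fin P.nv → Fin 4) (hs1 : P.sat G h1) (hs2 : P.sat H h2)
    (i j : Fin k) (hsep : ¬ P.graph.Reachable (P.head i) (P.head j)) :
    ∃ a : Fin k → Fin 4 ⊕ Fin 4, a i = .inr (h2 (P.head i)) ∧ a j = .inl (h1 (P.head j)) ∧
      P.ans (amal G H Sum.inr) a := by
  let A : Set (Fin P.nv) := {r | P.graph.Reachable (P.head i) r}
  have hs := amal_sat P G H Sum.inr h1 h2 hs1 hs2 A (by
    intro s r adj hsA hrA
    exact absurd (SimpleGraph.Reachable.trans hsA adj.reachable) hrA)
  refine ⟨fun m => if P.head m ∈ A then .inr (h2 (P.head m)) else .inl (h1 (P.head m)), ?_, ?_,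
    _, fun m => ?_, hs⟩
  rotate_left 2
  · by_cases hm : P.head m ∈ A <;> simp only [hm, if_true, if_false]
  · have : P.head i ∈ A := SimpleGraph.Reachable.refl _
    simp only [this, if_true]
  · have : P.head j ∉ A := hsep
    simp only [this, if_false]

instance decT1 (u : Fin 4) (c : L) (v : Fin 4) : Decidable (T1.edge u c v) := by
  unfold T1; infer_instance

instance decT2 (u : Fin 4) (c : L) (v : Fin 4) : Decidable (T2.edge u c v) := by
  unfold T2; infer_instance

instance decAmal {S : Type} (G H : DB S (Fin 4)) (f : Fin 4 → Fin 4 ⊕ Fin 4)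
    [∀ u c v, Decidable (G.edge u c v)] [∀ u c v, Decidable (H.edge u c v)]
    (p : Fin 4 ⊕ Fin 4) (c : S) (q : Fin 4 ⊕ Fin 4) : Decidable ((amal G H f).edge p c q) := by
  unfold amal; infer_instance

lemma glue1 : ∀ a : Fin 4, (amal T1 T1 (phi a a)).edge (phi a a 0) L.l (.inl 1) →
    (amal T1 T1 (phi a a)).edge (.inl 1) L.l (phi a a 2) → a = 1 := by decide

lemma glue2 : ∀ a : Fin 4, (amal T2 T2 (phi a a)).edge (phi a a 0) L.l (.inl 1) →
    (amal T2 T2 (phi a a)).edge (.inl 1) L.l (phi a a 2) → a = 1 := by decide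

lemma glue3 : ∀ e, ¬ (amal T1 T2 (phi 1 1)).edge (phi 1 1 0) L.m e := by decide

lemma glue4 : ∀ e, ¬ (amal T1 T2 (phi 1 1)).edge (.inl 2) L.n e := by decide

lemma no_single (P : C2RPQ L 3) (hP : P.Acyclic) (hE : Equivalent Q P) : False := by
  have q1 : Q.ans T1 ![0, 1, 2] := by
    rw [Q_equiv]
    refine ⟨P1, by simp, ?_⟩
    rw [P1_ans]
    refine ⟨by simp [T1], by simp [T1], 3, by simp [T1]⟩
  have q2 : Q.ans T2 ![0, 1, 2] := by
    rw [Q_equiv]
    refine ⟨P2, by simp, ?_⟩
    rw [P2_ans]
    refine ⟨by simp [T2], by simp [T2], 3, by simp [T2]⟩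
  obtain ⟨h1, e1, s1⟩ := (hE _ T1 _).1 q1
  obtain ⟨h2, e2, s2⟩ := (hE _ T2 _).1 q2
  have e10 : h1 (P.head 0) = 0 := e1 0
  have e11 : h1 (P.head 1) = 1 := e1 1
  have e12 : h1 (P.head 2) = 2 := e1 2
  have e20 : h2 (P.head 0) = 0 := e2 0
  have e21 : h2 (P.head 1) = 1 := e2 1
  have e22 : h2 (P.head 2) = 2 := e2 2
  -- the three free variables are connected
  have r01 : P.graph.Reachable (P.head 0) (P.head 1) := by
    by_contra hn
    obtain ⟨a, ha0, ha1, ha⟩ := split_disj P T1 T1 h1 h1 s1 s1 0 1 hn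
    have := ((Q_ans _ _).1 ((hE _ _ _).2 ha)).1
    rw [ha0, ha1] at this
    rcases this with ⟨u, v, h, h', -⟩ | ⟨u, v, h, h', -⟩
    · exact absurd h (by simp)
    · exact absurd h' (by simp)
  have r12 : P.graph.Reachable (P.head 1) (P.head 2) := by
    by_contra hn
    obtain ⟨a, ha0, ha1, ha⟩ := split_disj P T1 T1 h1 h1 s1 s1 1 2 hn
    have := ((Q_ans _ _).1 ((hE _ _ _).2 ha)).2.1
    rw [ha0, ha1] at this
    rcases this with ⟨u, v, h, h', -⟩ | ⟨u, v, h, h', -⟩
    · exact absurd h (by simp)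
    · exact absurd h' (by simp)
  obtain ⟨t, s01, s12, s02⟩ := exists_median hP _ _ _ r01 r12
  have hsep0 : ∀ j : Fin 3, j ≠ 0 → Sep P.graph t (P.head 0) (P.head j) := by
    intro j hj
    fin_cases j
    · exact absurd rfl hj
    · exact s01
    · exact s02
  have hsep2 : ∀ j : Fin 3, j ≠ 2 → Sep P.graph t (P.head 2) (P.head j) := by
    intro j hj
    fin_cases j
    · exact s02.symm
    · exact s12.symm
    · exact absurd rfl hj
  -- the median is sent to the node `1` in both databases
  have m1 : h1 t = 1 := by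
    have A0 := ((Q_ans _ _).1 ((hE _ _ _).2 (split_ans P T1 T1 h1 h1 s1 s1 t 0 hsep0))).1
    have A2 := ((Q_ans _ _).1 ((hE _ _ _).2 (split_ans P T1 T1 h1 h1 s1 s1 t 2 hsep2))).2.1
    apply glue1
    · simpa [e10, e11] using A0
    · simpa [e11, e12] using A2
  have m2 : h2 t = 1 := by
    have A0 := ((Q_ans _ _).1 ((hE _ _ _).2 (split_ans P T2 T2 h2 h2 s2 s2 t 0 hsep0))).1
    have A2 := ((Q_ans _ _).1 ((hE _ _ _).2 (split_ans P T2 T2 h2 h2 s2 s2 t 2 hsep2))).2.1
    apply glue2
    · simpa [e20, e21] using A0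
    · simpa [e21, e22] using A2
  -- now mix the two databases
  have F := (Q_equiv _ _).1 ((hE _ _ _).2 (split_ans P T1 T2 h1 h2 s1 s2 t 0 hsep0))
  simp only [List.mem_cons, List.not_mem_nil, or_false, exists_eq_or_imp, exists_eq_left] at F
  rw [P1_ans, P2_ans] at F
  rw [m1, m2] at F
  rcases F with ⟨-, -, e, he⟩ | ⟨-, -, e, he⟩
  · apply glue3 e
    simpa [e20] using he
  · apply glue4 e
    simpa [e12] using he

/-- There is a finite alphabet and a C2RPQ over it that is semantically acyclic (equivalent to a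
union of acyclic C2RPQs) but is not equivalent to any single acyclic C2RPQ. -/
theorem result : ∃ (S : Type) (_ : Finite S) (k : ℕ) (Q : C2RPQ S k),
    Function.Injective Q.head ∧ SemAcyclic Q ∧ ¬ ∃ P : C2RPQ S k, P.Acyclic ∧ Equivalent Q P := by
  refine ⟨L, inferInstance, 3, Q, fun a b h => h, Q_semAcyclic, ?_⟩
  rintro ⟨P, hP, hE⟩
  exact no_single P hP hE

end Pool.Agent.Results.MP_968ae6_lc.NoSingleAcyclic
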